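import Mathlib

namespace Pool.Agent.MP_66cee2_co.H30U

open MeasureTheory Set Metric ProbabilityTheory
open scoped RealInnerProductSpace

abbrev V (d : ℕ) := EuclideanSpace ℝ (Fin d)

variable {d m : ℕ}

/-- the point `z` belongs to the piece of the centre `a j` -/
def Good (r s : ℝ) (a : Fin m → V d) (j : Fin m) (z : V d) : Prop :=
  ‖z - a j‖ < r ∧ ∀ i, i ≠ j → s < ‖a i - (a j + (3 / 2 : ℝ) • (z - a j))‖

theorem key (u w : V d) (hu : ‖u‖ < 1 / 2) (h : 2599 / 2000 < ‖w - (3 / 2 : ℝ) • u‖) :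
    2 * ⟪w, u⟫ < ‖w‖ ^ 2 - ‖w‖ := by
  have e : ‖w - (3 / 2 : ℝ) • u‖ ^ 2 = ‖w‖ ^ 2 - 3 * ⟪w, u⟫ + 9 / 4 * ‖u‖ ^ 2 := by
    rw [norm_sub_sq_real, real_inner_smul_right, norm_smul, Real.norm_eq_abs,
      abs_of_pos (by norm_num : (0 : ℝ) < 3 / 2)]
    ring
  have h2 : (2599 / 2000 : ℝ) ^ 2 < ‖w - (3 / 2 : ℝ) • u‖ ^ 2 :=
    pow_lt_pow_left₀ h (by norm_num) (by norm_num)
  have h3 : ‖u‖ ^ 2 ≤ (1 / 2) ^ 2 := pow_le_pow_left₀ (norm_nonneg _) hu.le 2
  nlinarith [sq_nonneg (‖w‖ - 3 / 2)]

theorem sep {a : Fin m → V d} {i j : Fin m} {x y : V d} (hij : i ≠ j)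
    (hx : Good (1 / 2) (2599 / 2000) a j x) (hy : Good (1 / 2) (2599 / 2000) a i y) :
    1 < ‖y - x‖ := by
  have h1 := key (x - a j) (a i - a j) hx.1 (by
    have := hx.2 i hij
    rwa [← sub_sub] at this)
  have h2 := key (y - a i) (a j - a i) hy.1 (by
    have := hy.2 j hij.symm
    rwa [← sub_sub] at this)
  have e1 : a j - a i = -(a i - a j) := by abel
  rw [e1, inner_neg_left, norm_neg] at h2
  have e2 : y - x = (a i - a j) + (y - a i) - (x - a j) := by abel
  have e3 : ⟪a i - a j, y - x⟫ = ‖a i - a j‖ ^ 2 + ⟪a i - a j, y - a i⟫ - ⟪a i - a j, x - a j⟫ := by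
    conv_lhs => rw [e2]
    rw [inner_sub_right, inner_add_right, real_inner_self_eq_norm_sq]
  have h4 := real_inner_le_norm (a i - a j) (y - x)
  by_contra hc
  rw [not_lt] at hc
  nlinarith [norm_nonneg (a i - a j)]

theorem same {a : Fin m → V d} {j : Fin m} {x y : V d} {s : ℝ}
    (hx : Good (1 / 2) s a j x) (hy : Good (1 / 2) s a j y) : ‖y - x‖ < 1 := by
  have e : y - x = (y - a j) - (x - a j) := by abel
  rw [e]
  linarith [norm_sub_le (y - a j) (x - a j), hx.1, hy.1]

theorem robust {a : Fin m → V d} {j : Fin m} {x z : V d}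
    (hz : Good (499 / 1000) (1301 / 1000) a j z) (h : ‖x - z‖ ≤ 1 / 1000) :
    Good (1 / 2) (2599 / 2000) a j x := by
  refine ⟨?_, fun i hi => ?_⟩
  · have e : x - a j = (x - z) + (z - a j) := by abel
    rw [e]
    linarith [norm_add_le (x - z) (z - a j), hz.1]
  · have e : a i - (a j + (3 / 2 : ℝ) • (z - a j))
        = (a i - (a j + (3 / 2 : ℝ) • (x - a j))) + (3 / 2 : ℝ) • (x - z) := by
      simp only [smul_sub]; abel
    have h1 := hz.2 i hi
    rw [e] at h1
    have h2 := norm_add_le (a i - (a j + (3 / 2 : ℝ) • (x - a j))) ((3 / 2 : ℝ) • (x - z))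
    rw [norm_smul, Real.norm_eq_abs, abs_of_pos (by norm_num : (0 : ℝ) < 3 / 2)] at h2
    linarith

theorem good_meas (r s : ℝ) (j : Fin m) (z : V d) :
    MeasurableSet {a : Fin m → V d | Good r s a j z} := by
  have : {a : Fin m → V d | Good r s a j z} = {a | ‖z - a j‖ < r} ∩
      ⋂ i, ⋂ (_ : i ≠ j), {a | s < ‖a i - (a j + (3 / 2 : ℝ) • (z - a j))‖} := by
    ext a; simp [Good]
  rw [this]
  refine (measurableSet_lt (by fun_prop) measurable_const).inter
    (MeasurableSet.iInter fun i => MeasurableSet.iInter fun _ =>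
      measurableSet_lt measurable_const (by fun_prop))

theorem pair (ν : Measure (V d)) [IsProbabilityMeasure ν] {i j : Fin m} (hij : i ≠ j) (z : V d)
    (r s v : ℝ) (hv0 : 0 ≤ v) (hv : ∀ c, ν.real (closedBall c s) ≤ v) :
    (Measure.pi fun _ : Fin m => ν).real
      {a | ‖z - a j‖ < r ∧ ‖a i - (a j + (3 / 2 : ℝ) • (z - a j))‖ ≤ s}
      ≤ ν.real (ball z r) * v := by
  have hind : iIndepFun (fun (k : Fin m) (ω : Fin m → V d) => id (ω k))
      (Measure.pi fun _ : Fin m => ν) := iIndepFun_pi fun _ => aemeasurable_id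
  have h2 := (hind.indepFun hij.symm).map_prod_eq_prod_map_map
    (measurable_pi_apply j).aemeasurable (measurable_pi_apply i).aemeasurable
  rw [(measurePreserving_eval (fun _ : Fin m => ν) j).map_eq,
    (measurePreserving_eval (fun _ : Fin m => ν) i).map_eq] at h2
  have hT : MeasurableSet {p : V d × V d | ‖z - p.1‖ < r ∧
      ‖p.2 - (p.1 + (3 / 2 : ℝ) • (z - p.1))‖ ≤ s} := by
    have c1 : Continuous fun p : V d × V d => ‖z - p.1‖ := by fun_prop
    have c2 : Continuous fun p : V d × V d => ‖p.2 - (p.1 + (3 / 2 : ℝ) • (z - p.1))‖ := by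
      fun_prop
    exact (measurableSet_lt c1.measurable measurable_const).inter
      (measurableSet_le c2.measurable measurable_const)
  have h3 := Measure.map_apply (μ := Measure.pi fun _ : Fin m => ν)
    (f := fun ω : Fin m → V d => (ω j, ω i)) (by fun_prop) hT
  rw [h2, Measure.prod_apply hT] at h3
  have h4 : (Measure.pi fun _ : Fin m => ν)
      {a | ‖z - a j‖ < r ∧ ‖a i - (a j + (3 / 2 : ℝ) • (z - a j))‖ ≤ s}
      ≤ ENNReal.ofReal v * ν (ball z r) := by
    refine h3.symm.le.trans ?_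
    rw [← lintegral_indicator_const measurableSet_ball]
    refine lintegral_mono fun x => ?_
    by_cases hx : x ∈ ball z r
    · rw [indicator_of_mem hx]
      refine le_trans (measure_mono (t := closedBall (x + (3 / 2 : ℝ) • (z - x)) s) ?_) ?_
      · intro y hy
        rw [mem_closedBall, dist_eq_norm]; exact hy.2
      · rw [← ofReal_measureReal]
        exact ENNReal.ofReal_le_ofReal (hv _)
    · have : Prod.mk x ⁻¹' {p : V d × V d | ‖z - p.1‖ < r ∧
          ‖p.2 - (p.1 + (3 / 2 : ℝ) • (z - p.1))‖ ≤ s} = ∅ := by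
        refine eq_empty_of_forall_notMem fun y hy => hx ?_
        rw [mem_ball, dist_comm, dist_eq_norm]; exact hy.1
      simp only [this, measure_empty, zero_le]
  have h5 := ENNReal.toReal_mono (ENNReal.mul_ne_top ENNReal.ofReal_ne_top (measure_ne_top _ _)) h4
  rw [ENNReal.toReal_mul, ENNReal.toReal_ofReal hv0, mul_comm] at h5
  exact h5

theorem prob (ν : Measure (V d)) [IsProbabilityMeasure ν] (z : V d) (v : ℝ) (hv0 : 0 ≤ v)
    (hv : ∀ c, ν.real (closedBall c (1301 / 1000)) ≤ v) :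
    m * (ν.real (ball z (499 / 1000)) * (1 - m * v)) ≤
      (Measure.pi fun _ : Fin m => ν).real
        (⋃ j, {a | Good (499 / 1000) (1301 / 1000) a j z}) := by
  rw [measureReal_iUnion_fintype ?_ (fun j => good_meas _ _ j z)]
  · have h : ∀ j : Fin m, ν.real (ball z (499 / 1000)) * (1 - m * v) ≤
        (Measure.pi fun _ : Fin m => ν).real {a | Good (499 / 1000) (1301 / 1000) a j z} := by
      intro j
      have e1 : (Measure.pi fun _ : Fin m => ν).real
          ((fun a : Fin m → V d => a j) ⁻¹' ball z (499 / 1000)) = ν.real (ball z (499 / 1000)) :=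
        (measurePreserving_eval (fun _ : Fin m => ν) j).measureReal_preimage
          measurableSet_ball.nullMeasurableSet
      have sub : (fun a : Fin m → V d => a j) ⁻¹' ball z (499 / 1000) ⊆
          {a | Good (499 / 1000) (1301 / 1000) a j z} ∪ ⋃ i ∈ Finset.univ.erase j,
            {a | ‖z - a j‖ < 499 / 1000 ∧
              ‖a i - (a j + (3 / 2 : ℝ) • (z - a j))‖ ≤ 1301 / 1000} := by
        intro a ha
        have ha' : ‖z - a j‖ < 499 / 1000 := by
          rw [mem_preimage, mem_ball, dist_comm, dist_eq_norm] at ha; exact ha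
        by_cases hg : ∀ i, i ≠ j → 1301 / 1000 < ‖a i - (a j + (3 / 2 : ℝ) • (z - a j))‖
        · exact Or.inl ⟨ha', hg⟩
        · simp only [not_forall, not_lt] at hg
          obtain ⟨i, hi, hle⟩ := hg
          exact Or.inr (mem_biUnion (Finset.mem_erase.2 ⟨hi, Finset.mem_univ _⟩) ⟨ha', hle⟩)
      have e2 := (measureReal_mono (μ := Measure.pi fun _ : Fin m => ν) sub).trans
        ((measureReal_union_le _ _).trans (add_le_add le_rfl ((measureReal_biUnion_finset_le _ _).trans
          (Finset.sum_le_card_nsmul _ _ (ν.real (ball z (499 / 1000)) * v) fun i hi =>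
            pair ν (Finset.mem_erase.1 hi).1 z _ _ v hv0 hv))))
      rw [e1, nsmul_eq_mul] at e2
      have e3 : ((Finset.univ.erase j).card : ℝ) ≤ m := by
        exact_mod_cast (Finset.card_erase_le.trans (by simp))
      have e4 : 0 ≤ ν.real (ball z (499 / 1000)) * v := mul_nonneg measureReal_nonneg hv0
      nlinarith
    have := Finset.card_nsmul_le_sum Finset.univ _ _ fun j _ => h j
    simpa using this
  · intro i j hij
    refine disjoint_left.2 fun a h1 h2 => ?_
    have := sep hij (robust (x := z) h2 (by simp)) (robust (x := z) h1 (by simp))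
    simp at this
    linarith

theorem cover {Ω Z : Type*} [MeasurableSpace Ω] [Fintype Z] (P : Measure Ω)
    [IsProbabilityMeasure P] (A : Z → Set Ω) (hA : ∀ z, MeasurableSet (A z)) (p : ℝ)
    (hp : ∀ z, p ≤ P.real (A z)) (N : ℕ) (hN : Fintype.card Z * Real.exp (-p * N) < 1) :
    ∃ ω : Fin N → Ω, ∀ z, ∃ k, ω k ∈ A z := by
  by_contra hc
  simp only [not_exists, not_forall] at hc
  have sub : (univ : Set (Fin N → Ω)) ⊆ ⋃ z, Set.pi univ fun _ => (A z)ᶜ := by
    intro ω _
    obtain ⟨z, hz⟩ := hc ω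
    exact mem_iUnion.2 ⟨z, fun k _ => hz k⟩
  have h1 := (measureReal_mono (μ := Measure.pi fun _ : Fin N => P) sub).trans
    (measureReal_iUnion_fintype_le _)
  have h2 : ∀ z, (Measure.pi fun _ : Fin N => P).real (Set.pi univ fun _ => (A z)ᶜ)
      ≤ Real.exp (-p * N) := by
    intro z
    rw [Measure.real, Measure.pi_pi, Finset.prod_const, Finset.card_univ, Fintype.card_fin,
      ENNReal.toReal_pow, mul_comm, Real.exp_nat_mul]
    refine pow_le_pow_left₀ ENNReal.toReal_nonneg ?_ N
    have e : P.real (A z)ᶜ = 1 - P.real (A z) := by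
      rw [measureReal_compl (hA z)]; simp
    have := Real.add_one_le_exp (-p)
    have h3 := hp z
    change P.real (A z)ᶜ ≤ _
    linarith
  have h3 := Finset.sum_le_card_nsmul Finset.univ _ _ fun z _ => h2 z
  simp only [probReal_univ, Finset.card_univ, nsmul_eq_mul] at h1 h3
  linarith

end Pool.Agent.MP_66cee2_co.H30U
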