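import Pool.Agent.MP_66cee2_co.H30U.Geo

namespace Pool.Agent.MP_66cee2_co.H30U

open MeasureTheory Set Metric ProbabilityTheory Filter

variable {d : ℕ}

theorem norm_le_of (y : V d) (h : ℝ) (h0 : 0 ≤ h) (hy : ∀ i, |y i| ≤ h) : ‖y‖ ≤ d * h := by
  refine le_of_sq_le_sq ?_ (by positivity) |> fun t => t
  rw [EuclideanSpace.real_norm_sq_eq]
  have h1 := Finset.sum_le_card_nsmul Finset.univ (fun i => y i ^ 2) (h ^ 2) fun i _ => by
    rw [← sq_abs]; exact pow_le_pow_left₀ (abs_nonneg _) (hy i) 2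
  simp only [Finset.card_univ, Fintype.card_fin, nsmul_eq_mul] at h1
  have h2 : (d : ℝ) ≤ d ^ 2 := by exact_mod_cast Nat.le_self_pow (by norm_num) d
  nlinarith [sq_nonneg h]

theorem unif (R : ℝ) (hR : 0 < R) : ∃ ν : Measure (V d), IsProbabilityMeasure ν ∧
    (∀ z r, 0 < r → ‖z‖ + r ≤ R → ν.real (ball z r) = (r / R) ^ d) ∧
    ∀ c s, 0 ≤ s → ν.real (closedBall c s) ≤ (s / R) ^ d := by
  have h0 : (volume : Measure (V d)) (ball 0 R) ≠ 0 := (measure_ball_pos _ _ hR).ne'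
  have h1 : (volume : Measure (V d)) (ball 0 R) ≠ ⊤ := measure_ball_lt_top.ne
  have b0 : 0 < ((volume : Measure (V d)) (ball 0 1)).toReal :=
    ENNReal.toReal_pos (measure_ball_pos _ _ one_pos).ne' measure_ball_lt_top.ne
  have hr : Module.finrank ℝ (V d) = d := by simp
  have val : ∀ r, 0 ≤ r → (((volume : Measure (V d)) (ball 0 R))⁻¹ *
      (ENNReal.ofReal (r ^ d) * (volume : Measure (V d)) (ball 0 1))).toReal = (r / R) ^ d := by
    intro r hr0
    rw [Measure.addHaar_ball_of_pos _ _ hR, hr, ENNReal.toReal_mul, ENNReal.toReal_inv,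
      ENNReal.toReal_mul, ENNReal.toReal_mul, ENNReal.toReal_ofReal (by positivity),
      ENNReal.toReal_ofReal (by positivity), div_pow]
    field_simp
  refine ⟨cond volume (ball 0 R), cond_isProbabilityMeasure_of_finite h0 h1, fun z r hp hz => ?_,
    fun c s hs => ?_⟩
  · have sub : ball z r ⊆ ball (0 : V d) R := ball_subset_ball' (by simpa [add_comm] using hz)
    rw [Measure.real, cond_apply measurableSet_ball, inter_eq_right.2 sub,
      Measure.addHaar_ball_of_pos _ z hp, hr, val r hp.le]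
  · rw [Measure.real, cond_apply measurableSet_ball, ← val s hs]
    refine ENNReal.toReal_mono (ENNReal.mul_ne_top (ENNReal.inv_ne_top.2 h0)
      (ENNReal.mul_ne_top ENNReal.ofReal_ne_top measure_ball_lt_top.ne)) ?_
    gcongr
    have e := Measure.addHaar_closedBall (volume : Measure (V d)) c hs
    rw [hr] at e
    rw [← e]
    exact measure_mono inter_subset_right

/-- a colouring of the cube -/
theorem cube (hd : 1 ≤ d) (N : ℕ) (hN : 16000 * (d : ℝ) ^ 3 * (1301 / 499) ^ d < N) :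
    ∃ col : V d → Fin N, ∀ x y : V d, (∀ i, 0 ≤ x i ∧ x i < 2 * d) →
      (∀ i, 0 ≤ y i ∧ y i < 2 * d) → col x = col y → ‖y - x‖ ≠ 1 := by
  have hd' : (1 : ℝ) ≤ d := by exact_mod_cast hd
  obtain ⟨R, hR⟩ : ∃ R : ℝ, R = 2 * d ^ 2 + 1 := ⟨_, rfl⟩
  have R3 : 3 ≤ R := by nlinarith
  obtain ⟨ν, hν, h1, h2⟩ := unif (d := d) R (by linarith)
  obtain ⟨v, hv⟩ : ∃ v : ℝ, v = (1301 / 1000 / R) ^ d := ⟨_, rfl⟩
  have v0 : 0 < v := by rw [hv]; positivity
  have v1 : v ≤ 1 / 2 := by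
    have : 1301 / 1000 / R ≤ 1 / 2 := by rw [div_le_iff₀ (by linarith)]; linarith
    rw [hv]
    exact (pow_le_of_le_one (by positivity) (by linarith) (by omega)).trans this
  obtain ⟨m, m1, m2⟩ : ∃ m : ℕ, m * v ≤ 1 / 2 ∧ 1 / 4 ≤ m * v := by
    have a1 : 1 ≤ 1 / (2 * v) := by rw [le_div_iff₀ (by positivity)]; linarith
    have a2 := Nat.floor_le (show 0 ≤ 1 / (2 * v) by positivity)
    have a3 := Nat.lt_floor_add_one (1 / (2 * v))
    have a4 : (1 : ℝ) ≤ ⌊1 / (2 * v)⌋₊ := by exact_mod_cast Nat.floor_pos.2 a1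
    refine ⟨⌊1 / (2 * v)⌋₊, ?_, ?_⟩
    · rw [le_div_iff₀ (by positivity)] at a2; linarith
    · rw [div_lt_iff₀ (by positivity)] at a3; nlinarith
  let pt : (Fin d → Fin (2000 * d ^ 2)) → V d := fun k =>
    WithLp.toLp 2 fun i => ((k i : ℕ) : ℝ) / (1000 * d)
  have ptn : ∀ k, ‖pt k‖ + 499 / 1000 ≤ R := by
    intro k
    have := norm_le_of (pt k) (2 * d) (by positivity) fun i => by
      have hk : ((k i : ℕ) : ℝ) ≤ 2000 * d ^ 2 := by exact_mod_cast (k i).2.le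
      simp only [pt]
      rw [abs_of_nonneg (by positivity), div_le_iff₀ (by positivity)]
      nlinarith
    nlinarith
  obtain ⟨p, hp⟩ : ∃ p : ℝ, p = (499 / 1301) ^ d / 8 := ⟨_, rfl⟩
  have q1 : (499 / 1000 / R) ^ d = (499 / 1301) ^ d * v := by
    rw [hv, ← mul_pow]; congr 1; field_simp
  obtain ⟨ω, hω⟩ := cover (Measure.pi fun _ : Fin m => ν)
    (fun k => ⋃ j, {a | Good (499 / 1000) (1301 / 1000) a j (pt k)})
    (fun k => MeasurableSet.iUnion fun j => good_meas _ _ j _) p (fun k => by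
      refine le_trans ?_ (prob ν (pt k) v v0.le fun c => hv ▸ h2 c _ (by norm_num))
      rw [h1 _ _ (by norm_num) (ptn k), q1, hp]
      have : (0 : ℝ) < (499 / 1301) ^ d := by positivity
      have e : (m : ℝ) * ((499 / 1301) ^ d * v * (1 - m * v))
          = (499 / 1301) ^ d * ((m * v) * (1 - m * v)) := by ring
      rw [e, div_eq_mul_inv]
      refine mul_le_mul_of_nonneg_left ?_ this.le
      nlinarith) N (by
      rw [Fintype.card_fun, Fintype.card_fin, Fintype.card_fin]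
      push_cast
      have a1 : ((2000 : ℝ) * d ^ 2) ^ d ≤ Real.exp (d * (2000 * d ^ 2)) := by
        rw [Real.exp_nat_mul]
        exact pow_le_pow_left₀ (by positivity)
          (by linarith [Real.add_one_le_exp (2000 * (d : ℝ) ^ 2)]) d
      have a2 : (d : ℝ) * (2000 * d ^ 2) < p * N := by
        have e : (499 / 1301 : ℝ) ^ d * (1301 / 499) ^ d = 1 := by
          rw [← mul_pow]; norm_num
        have : (0 : ℝ) < (499 / 1301) ^ d := by positivity
        have a3 := mul_lt_mul_of_pos_left hN this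
        have e2 : (499 / 1301 : ℝ) ^ d * (16000 * (d : ℝ) ^ 3 * (1301 / 499) ^ d)
            = 16000 * (d : ℝ) ^ 3 := by linear_combination (16000 * (d : ℝ) ^ 3) * e
        rw [e2] at a3
        rw [hp]; nlinarith
      calc _ ≤ Real.exp (d * (2000 * d ^ 2)) * Real.exp (-p * N) :=
            mul_le_mul_of_nonneg_right a1 (Real.exp_pos _).le
        _ < 1 := by rw [← Real.exp_add, Real.exp_lt_one_iff]; linarith)
  have ex : ∀ x : V d, ∃ k : Fin N, (∀ i, 0 ≤ x i ∧ x i < 2 * d) →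
      ∃ j, Good (1 / 2) (2599 / 2000) (ω k) j x := by
    intro x
    by_cases hx : ∀ i, 0 ≤ x i ∧ x i < 2 * d
    · have lt : ∀ i, ⌊x i * (1000 * d)⌋₊ < 2000 * d ^ 2 := by
        intro i
        rw [Nat.floor_lt (mul_nonneg (hx i).1 (by positivity))]
        push_cast
        nlinarith [(hx i).2]
      obtain ⟨k, hk⟩ := hω fun i => ⟨_, lt i⟩
      obtain ⟨j, hj⟩ := mem_iUnion.1 hk
      refine ⟨k, fun _ => ⟨j, robust hj ?_⟩⟩
      have := norm_le_of (x - pt fun i => ⟨_, lt i⟩) (1 / (1000 * d)) (by positivity) fun i => by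
        have a1 := Nat.floor_le (mul_nonneg (hx i).1 (show (0 : ℝ) ≤ 1000 * d by positivity))
        have a2 := Nat.lt_floor_add_one (x i * (1000 * d))
        have e : (x - pt fun i => ⟨_, lt i⟩) i
            = (x i * (1000 * d) - ⌊x i * (1000 * d)⌋₊) / (1000 * d) := by
          simp only [pt, PiLp.sub_apply]; field_simp
        rw [e, abs_of_nonneg (div_nonneg (by linarith) (by positivity))]
        exact div_le_div_of_nonneg_right (by linarith) (by positivity)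
      refine this.trans (le_of_eq ?_)
      field_simp
    · obtain ⟨k, -⟩ := hω fun i => ⟨0, by positivity⟩
      exact ⟨k, fun h => absurd h hx⟩
  choose col hcol using ex
  refine ⟨col, fun x y hx hy h => ?_⟩
  obtain ⟨j, hj⟩ := hcol x hx
  obtain ⟨i, hi⟩ := hcol y hy
  rw [← h] at hi
  by_cases hij : i = j
  · subst hij; exact (same hj hi).ne
  · exact (sep hij hj hi).ne'

theorem shift (x : V d) : ∃ (j : Fin (d + 1)) (n : Fin d → ℤ), ∀ i,
    0 ≤ x i - (2 * (j : ℕ) + 2 + 2 * (d + 1) * n i) ∧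
      x i - (2 * (j : ℕ) + 2 + 2 * (d + 1) * n i) < 2 * d := by
  have hpos : (0 : ℤ) < d + 1 := by positivity
  let t : Fin d → Fin (d + 1) := fun i => ⟨(⌊x i / 2⌋ % (d + 1)).toNat, by
    have := Int.emod_lt_of_pos ⌊x i / 2⌋ hpos
    omega⟩
  obtain ⟨j, hj⟩ : ∃ j, ∀ i, t i ≠ j := by
    by_contra hc
    simp only [not_exists, not_forall, not_not] at hc
    have := Fintype.card_le_of_surjective t hc
    simp at this
  refine ⟨j, fun i => (⌊x i / 2⌋ - j - 1) / (d + 1), fun i => ?_⟩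
  have a1 := Int.floor_le (x i / 2)
  have a2 := Int.lt_floor_add_one (x i / 2)
  have b1 := Int.emod_add_mul_ediv (⌊x i / 2⌋ - (j : ℕ) - 1) (d + 1)
  have b2 := Int.emod_nonneg (⌊x i / 2⌋ - (j : ℕ) - 1) hpos.ne'
  have b3 := Int.emod_lt_of_pos (⌊x i / 2⌋ - (j : ℕ) - 1) hpos
  have b4 : (⌊x i / 2⌋ - (j : ℕ) - 1) % (d + 1) ≠ d := by
    intro h
    apply hj i
    apply Fin.ext
    simp only [t]
    have e : ⌊x i / 2⌋ = (j : ℕ) + (d + 1) * ((⌊x i / 2⌋ - (j : ℕ) - 1) / (d + 1) + 1) := by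
      rw [h] at b1; linarith
    have j1 : ((j : ℕ) : ℤ) < d + 1 := by exact_mod_cast j.2
    rw [e, Int.add_mul_emod_self_left, Int.emod_eq_of_lt (by positivity) j1]
    simp
  obtain ⟨ρ, hρ⟩ : ∃ ρ, ρ = (⌊x i / 2⌋ - (j : ℕ) - 1) % (d + 1) := ⟨_, rfl⟩
  rw [← hρ] at b1 b2 b3 b4
  have c1 : ((ρ : ℝ) + (d + 1) * (((⌊x i / 2⌋ - (j : ℕ) - 1) / (d + 1) : ℤ) : ℝ))
      = ⌊x i / 2⌋ - (j : ℕ) - 1 := by exact_mod_cast b1
  have c2 : (0 : ℝ) ≤ ρ := by exact_mod_cast b2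
  have c3 : (ρ : ℝ) + 1 ≤ d := by exact_mod_cast (show ρ + 1 ≤ d by omega)
  constructor <;> linarith

theorem space (hd : 1 ≤ d) (N : ℕ) (hN : 16000 * (d : ℝ) ^ 3 * (1301 / 499) ^ d < N) :
    ∃ col : V d → Fin (d + 1) × Fin N, ∀ x y : V d, ‖x - y‖ = 1 → col x ≠ col y := by
  obtain ⟨c, hc⟩ := cube hd N hN
  choose j n h using shift (d := d)
  let o : V d → V d := fun x =>
    WithLp.toLp 2 fun i => (2 * (j x : ℕ) + 2 + 2 * (d + 1) * n x i : ℝ)
  refine ⟨fun x => (j x, c (x - o x)), fun x y hxy he => ?_⟩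
  obtain ⟨e1, e2⟩ := Prod.mk.inj he
  by_cases hn : n x = n y
  · have eo : o x = o y := by simp only [o, e1, hn]
    refine hc (y - o y) (x - o x) (h y) (h x) e2.symm ?_
    rw [eo, sub_sub_sub_cancel_right, hxy]
  · obtain ⟨i, hi⟩ := Function.ne_iff.1 hn
    have a1 := h x i
    have a2 := h y i
    rw [e1] at a1
    have a3 : |(x - y) i| ≤ 1 := by
      rw [← hxy, ← Real.norm_eq_abs]; exact PiLp.norm_apply_le _ _
    rw [PiLp.sub_apply, abs_le] at a3
    have d0 : (0 : ℝ) ≤ d := by positivity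
    rcases lt_or_gt_of_ne hi with hl | hl
    · have : (n x i : ℝ) + 1 ≤ n y i := by exact_mod_cast hl
      nlinarith [a1.1, a1.2, a2.1, a2.2]
    · have : (n y i : ℝ) + 1 ≤ n x i := by exact_mod_cast hl
      nlinarith [a1.1, a1.2, a2.1, a2.2]

theorem toMap {C : Type} [Fintype C] (hd : 1 ≤ d) (n : ℕ) (hn : Fintype.card C ≤ n)
    (col : V d → C) (h : ∀ x y : V d, ‖x - y‖ = 1 → col x ≠ col y) :
    ∃ f : V d → V n, (∀ x y, ‖x - y‖ = 1 → ‖f x - f y‖ = 1) ∧
      ¬ ∀ x y, ‖f x - f y‖ = ‖x - y‖ := by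
  obtain ⟨e⟩ : Nonempty (C ↪ Fin n) := Function.Embedding.nonempty_of_card_le (by simpa using hn)
  have s2 : (√(1 / 2) : ℝ) ^ 2 = 1 / 2 := Real.sq_sqrt (by norm_num)
  have nn : ∀ a : Fin n, ‖(EuclideanSpace.single a √(1 / 2) : V n)‖ ^ 2 = 1 / 2 := by
    intro a; rw [EuclideanSpace.norm_single, Real.norm_eq_abs, sq_abs, s2]
  refine ⟨fun x => EuclideanSpace.single (e (col x)) √(1 / 2), fun x y hxy => ?_, fun hc => ?_⟩
  · have hne : e (col x) ≠ e (col y) := fun t => h x y hxy (e.injective t)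
    refine (sq_eq_sq₀ (norm_nonneg _) zero_le_one).1 ?_
    rw [norm_sub_sq_real, nn, nn, EuclideanSpace.inner_single_left]
    simp [hne]
    norm_num
  · have h1 := hc (EuclideanSpace.single ⟨0, hd⟩ 2) 0
    have h2 := norm_sub_le
      (EuclideanSpace.single (e (col (EuclideanSpace.single ⟨0, hd⟩ 2))) √(1 / 2) : V n)
      (EuclideanSpace.single (e (col 0)) √(1 / 2))
    have a := nn (e (col (EuclideanSpace.single ⟨0, hd⟩ 2)))
    have b := nn (e (col 0))
    simp only at h1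
    rw [h1, sub_zero, EuclideanSpace.norm_single (𝕜 := ℝ) _ 2, Real.norm_eq_abs, abs_two] at h2
    nlinarith [sq_nonneg (‖(EuclideanSpace.single (e (col 0)) √(1 / 2) : V n)‖ - 1),
      sq_nonneg (‖(EuclideanSpace.single (e (col (EuclideanSpace.single ⟨0, hd⟩ 2))) √(1 / 2) : V n)‖ - 1)]

theorem upper : ∃ d₀ : ℕ, ∀ d n : ℕ, d₀ ≤ d → (131 / 50 : ℝ) ^ d ≤ n →
    ∃ f : V d → V n, (∀ x y, ‖x - y‖ = 1 → ‖f x - f y‖ = 1) ∧
      ¬ ∀ x y, ‖f x - f y‖ = ‖x - y‖ := by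
  have lim := tendsto_pow_const_div_const_pow_of_one_lt 4
    (show (1 : ℝ) < (131 / 50) / (1301 / 499) by norm_num)
  obtain ⟨d₀, h0⟩ := eventually_atTop.1
    (lim.eventually (eventually_le_nhds (show (0 : ℝ) < 1 / 40000 by norm_num)))
  refine ⟨max d₀ 1, fun d n hd hn => ?_⟩
  have hd1 : 1 ≤ d := le_of_max_le_right hd
  have hd' : (1 : ℝ) ≤ d := by exact_mod_cast hd1
  have h1 := h0 d (le_of_max_le_left hd)
  obtain ⟨col, hc⟩ := space hd1 (⌊16000 * (d : ℝ) ^ 3 * (1301 / 499) ^ d⌋₊ + 1)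
    (by push_cast; exact Nat.lt_floor_add_one _)
  refine toMap hd1 n ?_ col hc
  rw [Fintype.card_prod, Fintype.card_fin, Fintype.card_fin]
  have a1 := Nat.floor_le (show 0 ≤ 16000 * (d : ℝ) ^ 3 * (1301 / 499) ^ d by positivity)
  have a2 : (1 : ℝ) ≤ (1301 / 499) ^ d := one_le_pow₀ (by norm_num)
  have a3 : (1 : ℝ) ≤ d ^ 3 := one_le_pow₀ hd'
  rw [div_pow, div_div_eq_mul_div, div_le_iff₀ (by positivity)] at h1
  have a4 : (1 : ℝ) ≤ d ^ 3 * (1301 / 499) ^ d := one_le_mul_of_one_le_of_one_le a3 a2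
  have a5 : ((d : ℝ) + 1) * (⌊16000 * (d : ℝ) ^ 3 * (1301 / 499) ^ d⌋₊ + 1)
      ≤ (2 * d) * (20000 * (d ^ 3 * (1301 / 499) ^ d)) :=
    mul_le_mul (by linarith) (by linarith) (by positivity) (by positivity)
  have a6 : (2 * (d : ℝ)) * (20000 * (d ^ 3 * (1301 / 499) ^ d))
      = 40000 * (d ^ 4 * (1301 / 499) ^ d) := by ring
  have : (((d + 1) * (⌊16000 * (d : ℝ) ^ 3 * (1301 / 499) ^ d⌋₊ + 1) : ℕ) : ℝ) ≤ n := by
    push_cast; linarith
  exact_mod_cast this

end Pool.Agent.MP_66cee2_co.H30U
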